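import Mathlib

/-!
# The Takagi function: functional equations and counting of solutions of `T x + c x = y`
-/

set_option autoImplicit false

open MeasureTheory Set Filter Topology

namespace Pool.Agent.H316R3.Tak

/-- distance to the nearest integer -/
noncomputable def phi (x : ℝ) : ℝ := |x - round x|

/-- the Takagi function -/
noncomputable def T (x : ℝ) : ℝ := ∑' n : ℕ, phi (2 ^ n * x) / 2 ^ n

lemma phi_norm (x : ℝ) : phi x = ‖(x : UnitAddCircle)‖ := UnitAddCircle.norm_eq.symm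

lemma phi_nonneg (x : ℝ) : 0 ≤ phi x := abs_nonneg _

lemma phi_le (x : ℝ) : phi x ≤ 1 / 2 := abs_sub_round x

lemma phi_cont : Continuous phi := by
  have : phi = fun x : ℝ => ‖(x : UnitAddCircle)‖ := funext phi_norm
  rw [this]
  exact continuous_norm.comp (AddCircle.continuous_mk' 1)

lemma phi_neg (x : ℝ) : phi (-x) = phi x := by
  rw [phi_norm, phi_norm, AddCircle.coe_neg, norm_neg]

lemma phi_add_nat (x : ℝ) (n : ℕ) : phi (x + n) = phi x := by
  unfold phi
  rw [round_add_natCast]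
  push_cast
  congr 1
  ring

lemma phi_eq {x : ℝ} (h0 : 0 ≤ x) (h1 : x ≤ 1) : phi x = min x (1 - x) := by
  unfold phi
  rw [abs_sub_round_eq_min]
  rcases h1.lt_or_eq with h | h
  · rw [Int.fract_eq_self.2 ⟨h0, h⟩]
  · subst h; simp

lemma summable_T (x : ℝ) : Summable fun n : ℕ => phi (2 ^ n * x) / 2 ^ n := by
  refine Summable.of_nonneg_of_le (fun n => by have := phi_nonneg (2 ^ n * x); positivity)
    (fun n => ?_) (summable_geometric_two.mul_left (1 / 2))
  rw [div_eq_mul_inv]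
  have : ((2 : ℝ) ^ n)⁻¹ = (1 / 2) ^ n := by rw [one_div, inv_pow]
  rw [this]
  exact mul_le_mul_of_nonneg_right (phi_le _) (by positivity)

lemma T_cont : Continuous T := by
  unfold T
  refine continuous_tsum (u := fun n : ℕ => (1 / 2 : ℝ) * (1 / 2) ^ n) (fun n => ?_)
    (summable_geometric_two.mul_left (1 / 2)) (fun n x => ?_)
  · exact (phi_cont.comp (continuous_const.mul continuous_id)).div_const _
  · rw [Real.norm_eq_abs, abs_of_nonneg (by have := phi_nonneg (2 ^ n * x); positivity), div_eq_mul_inv]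
    have : ((2 : ℝ) ^ n)⁻¹ = (1 / 2) ^ n := by rw [one_div, inv_pow]
    rw [this]
    exact mul_le_mul_of_nonneg_right (phi_le _) (by positivity)

lemma T_nonneg (x : ℝ) : 0 ≤ T x := tsum_nonneg fun n => by
  have := phi_nonneg (2 ^ n * x); positivity

lemma T_le_one (x : ℝ) : T x ≤ 1 := by
  have h1 : T x ≤ ∑' n : ℕ, (1 / 2 : ℝ) * (1 / 2) ^ n := by
    refine (summable_T x).tsum_le_tsum (fun n => ?_) (summable_geometric_two.mul_left (1 / 2))
    rw [div_eq_mul_inv]
    have : ((2 : ℝ) ^ n)⁻¹ = (1 / 2) ^ n := by rw [one_div, inv_pow]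
    rw [this]
    exact mul_le_mul_of_nonneg_right (phi_le _) (by positivity)
  rw [tsum_mul_left, tsum_geometric_two] at h1
  linarith

lemma T_fun (x : ℝ) : T x = phi x + T (2 * x) / 2 := by
  unfold T
  rw [(summable_T x).tsum_eq_zero_add]
  simp only [pow_zero, one_mul, div_one]
  congr 1
  rw [← tsum_div_const]
  refine tsum_congr fun n => ?_
  rw [pow_succ, mul_assoc, div_div]

lemma T_add_one (x : ℝ) : T (x + 1) = T x := by
  unfold T
  refine tsum_congr fun n => ?_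
  congr 1
  have : (2 : ℝ) ^ n * (x + 1) = 2 ^ n * x + ((2 ^ n : ℕ) : ℝ) := by push_cast; ring
  rw [this, phi_add_nat]

lemma T_symm (x : ℝ) : T (1 - x) = T x := by
  unfold T
  refine tsum_congr fun n => ?_
  congr 1
  have : (2 : ℝ) ^ n * (1 - x) = -(2 ^ n * x) + ((2 ^ n : ℕ) : ℝ) := by push_cast; ring
  rw [this, phi_add_nat, phi_neg]

lemma T_zero : T 0 = 0 := by
  unfold T
  simp [phi]

lemma T_one : T 1 = 0 := by
  have := T_symm 0
  rw [sub_zero, T_zero] at this
  exact this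

lemma T_left {x : ℝ} (h0 : 0 ≤ x) (h1 : x ≤ 1 / 2) : T x = x + T (2 * x) / 2 := by
  rw [T_fun, phi_eq h0 (by linarith), min_eq_left (by linarith)]

lemma T_right {x : ℝ} (h0 : 1 / 2 ≤ x) (h1 : x ≤ 1) : T x = 1 - x + T (2 * x - 1) / 2 := by
  rw [T_fun, phi_eq (by linarith) h1, min_eq_right (by linarith)]
  have := T_add_one (2 * x - 1)
  rw [show 2 * x - 1 + 1 = 2 * x by ring] at this
  rw [this]

/-- the bound `T x + k x ≤ k + (2/3) 2^{-k}` on `[0,1]` -/
lemma T_bound_aux (n : ℕ) : ∀ (k : ℕ) (x : ℝ), 0 ≤ x → x ≤ 1 →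
    T x + k * x ≤ k + 2 / 3 / 2 ^ k + 1 / 2 ^ n := by
  induction n with
  | zero =>
    intro k x h0 h1
    have h2 := T_le_one x
    have h3 : (k : ℝ) * x ≤ k * 1 := mul_le_mul_of_nonneg_left h1 (Nat.cast_nonneg k)
    have h4 : (0 : ℝ) < 2 / 3 / 2 ^ k := by positivity
    simp only [pow_zero, div_one]
    linarith
  | succ n ih =>
    -- the left half, for all `k`
    have hleft : ∀ (k : ℕ) (x : ℝ), 0 ≤ x → x ≤ 1 / 2 →
        T x + k * x ≤ k + 2 / 3 / 2 ^ k + 1 / 2 ^ (n + 1) := by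
      intro k x h0 h1
      have h2 := ih (k + 1) (2 * x) (by linarith) (by linarith)
      rw [T_left h0 h1]
      push_cast at h2
      have h3 : (2 : ℝ) / 3 / 2 ^ (k + 1) = 2 / 3 / 2 ^ k / 2 := by rw [pow_succ]; field_simp
      have h4 : (1 : ℝ) / 2 ^ (n + 1) = 1 / 2 ^ n / 2 := by rw [pow_succ]; field_simp
      rw [h3] at h2
      rw [h4]
      have h5 : (0 : ℝ) < 2 / 3 / 2 ^ k := by positivity
      rcases Nat.eq_zero_or_pos k with hk | hk
      · subst hk
        simp only [Nat.cast_zero, pow_zero, div_one] at *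
        linarith
      · have : (1 : ℝ) ≤ k := by exact_mod_cast hk
        linarith
    intro k x h0 h1
    rcases le_total x (1 / 2) with h | h
    · exact hleft k x h0 h
    · rcases Nat.eq_zero_or_pos k with hk | hk
      · subst hk
        have := hleft 0 (1 - x) (by linarith) (by linarith)
        rw [T_symm] at this
        simpa using this
      · obtain ⟨j, rfl⟩ : ∃ j, k = j + 1 := ⟨k - 1, by omega⟩
        have h2 := ih j (2 * x - 1) (by linarith) (by linarith)
        rw [T_right h h1]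
        push_cast
        have h3 : (2 : ℝ) / 3 / 2 ^ (j + 1) = 2 / 3 / 2 ^ j / 2 := by rw [pow_succ]; field_simp
        have h4 : (1 : ℝ) / 2 ^ (n + 1) = 1 / 2 ^ n / 2 := by rw [pow_succ]; field_simp
        rw [h3, h4]
        linarith

lemma T_bound (k : ℕ) (x : ℝ) (h0 : 0 ≤ x) (h1 : x ≤ 1) :
    T x + k * x ≤ k + 2 / 3 / 2 ^ k := by
  have h2 : Tendsto (fun n : ℕ => (k : ℝ) + 2 / 3 / 2 ^ k + 1 / 2 ^ n) atTop
      (𝓝 ((k : ℝ) + 2 / 3 / 2 ^ k + 0)) := by
    apply Tendsto.add tendsto_const_nhds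
    have := tendsto_pow_atTop_nhds_zero_of_lt_one (r := (1 / 2 : ℝ)) (by norm_num) (by norm_num)
    simpa [one_div, inv_pow] using this
  rw [add_zero] at h2
  exact ge_of_tendsto' h2 fun n => T_bound_aux n k x h0 h1

/-- the solutions of `T x + c x = y` in `[0,1]` -/
def Sol (c y : ℝ) : Set ℝ := {x | x ∈ Icc (0 : ℝ) 1 ∧ T x + c * x = y}

/-- the number of solutions -/
noncomputable def N (c y : ℝ) : ℕ∞ := (Sol c y).encard

lemma mem_left {c y x : ℝ} (h : x ∈ Sol c y) (hx : x ≤ 1 / 2) : 2 * x ∈ Sol (c + 1) (2 * y) := by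
  obtain ⟨⟨h0, h1⟩, h2⟩ := h
  refine ⟨⟨by linarith, by linarith⟩, ?_⟩
  rw [T_left h0 hx] at h2
  linarith

lemma mem_right {c y x : ℝ} (h : x ∈ Sol c y) (hx : 1 / 2 ≤ x) :
    2 * x - 1 ∈ Sol (c - 1) (2 * y - c - 1) := by
  obtain ⟨⟨h0, h1⟩, h2⟩ := h
  refine ⟨⟨by linarith, by linarith⟩, ?_⟩
  rw [T_right hx h1] at h2
  linarith

lemma left_mem {c y z : ℝ} (h : z ∈ Sol (c + 1) (2 * y)) : z / 2 ∈ Sol c y := by
  obtain ⟨⟨h0, h1⟩, h2⟩ := h
  refine ⟨⟨by linarith, by linarith⟩, ?_⟩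
  rw [T_left (by linarith) (by linarith), show 2 * (z / 2) = z by ring]
  linarith

lemma right_mem {c y z : ℝ} (h : z ∈ Sol (c - 1) (2 * y - c - 1)) : (z + 1) / 2 ∈ Sol c y := by
  obtain ⟨⟨h0, h1⟩, h2⟩ := h
  refine ⟨⟨by linarith, by linarith⟩, ?_⟩
  rw [T_right (by linarith) (by linarith), show 2 * ((z + 1) / 2) - 1 = z by ring]
  linarith

/-- the value at the midpoint -/
lemma half_mem {c y : ℝ} (h : (1 / 2 : ℝ) ∈ Sol c y) : y = (c + 1) / 2 := by
  have h2 := h.2
  rw [T_left (by norm_num) le_rfl, show 2 * (1 / 2 : ℝ) = 1 by norm_num, T_one] at h2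
  linarith

/-- the basic recursion -/
lemma N_rec {c y : ℝ} (hy : y ≠ (c + 1) / 2) :
    N c y = N (c + 1) (2 * y) + N (c - 1) (2 * y - c - 1) := by
  unfold N
  have h1 : Sol c y = (fun z => z / 2) '' Sol (c + 1) (2 * y) ∪
      (fun z => (z + 1) / 2) '' Sol (c - 1) (2 * y - c - 1) := by
    ext x
    constructor
    · intro hx
      rcases le_total x (1 / 2) with h | h
      · exact Or.inl ⟨2 * x, mem_left hx h, by ring⟩
      · exact Or.inr ⟨2 * x - 1, mem_right hx h, by ring⟩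
    · rintro (⟨z, hz, rfl⟩ | ⟨z, hz, rfl⟩)
      · exact left_mem hz
      · exact right_mem hz
  rw [h1, Set.encard_union_eq, Function.Injective.encard_image, Function.Injective.encard_image]
  · intro a b hab
    simp only at hab
    linarith
  · intro a b hab
    simp only at hab
    linarith
  · rw [Set.disjoint_left]
    rintro x ⟨z, hz, rfl⟩ ⟨z', hz', h⟩
    simp only at h
    have e1 := hz.1.2
    have e2 := hz'.1.1
    have e3 : z = 1 := by linarith
    have := left_mem hz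
    rw [e3] at this
    exact hy (half_mem this)

lemma N_symm (c y : ℝ) : N (-c) y = N c (y + c) := by
  unfold N
  have h1 : Sol (-c) y = (fun x => 1 - x) '' Sol c (y + c) := by
    ext x
    constructor
    · rintro ⟨⟨h0, h1⟩, h2⟩
      refine ⟨1 - x, ⟨⟨by linarith, by linarith⟩, ?_⟩, by ring⟩
      rw [T_symm]; linarith
    · rintro ⟨z, ⟨⟨h0, h1⟩, h2⟩, rfl⟩
      refine ⟨⟨by linarith, by linarith⟩, ?_⟩
      simp only
      rw [T_symm]; linarith
  rw [h1, Function.Injective.encard_image]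
  intro a b hab
  simp only at hab
  linarith

/-- level `0`: doubling -/
lemma N_zero {y : ℝ} (hy : y ≠ 1 / 2) : N 0 y = 2 * N 1 (2 * y) := by
  rw [N_rec (by simpa using hy), zero_add, zero_sub, N_symm]
  rw [show 2 * y - 0 - 1 + 1 = 2 * y by ring]
  exact (two_mul _).symm

lemma N_neg {c y : ℝ} (hc : 0 ≤ c) (hy : y < 0) : N c y = 0 := by
  unfold N
  rw [Set.encard_eq_zero, Set.eq_empty_iff_forall_notMem]
  rintro x ⟨⟨h0, h1⟩, h2⟩
  have := T_nonneg x
  have : 0 ≤ c * x := mul_nonneg hc h0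
  linarith

lemma N_above (k : ℕ) {y : ℝ} (hy : (k : ℝ) + 2 / 3 / 2 ^ k < y) : N k y = 0 := by
  unfold N
  rw [Set.encard_eq_zero, Set.eq_empty_iff_forall_notMem]
  rintro x ⟨⟨h0, h1⟩, h2⟩
  have := T_bound k x h0 h1
  linarith

/-- going up -/
lemma N_up {k : ℕ} (hk : 1 ≤ k) {v : ℝ} (hv : v < ((k : ℝ) + 1) / 2) :
    N k v = N (k + 1 : ℕ) (2 * v) := by
  have hk' : (1 : ℝ) ≤ k := by exact_mod_cast hk
  rw [N_rec hv.ne, N_neg (c := (k : ℝ) - 1) (by linarith) (by linarith), add_zero]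
  push_cast
  rfl

/-- going down -/
lemma N_down {k : ℕ} {v : ℝ} (hv : ((k : ℝ) + 1) / 2 + 1 / 6 / 2 ^ k < v) :
    N (k + 1 : ℕ) v = N (k + 1 : ℕ) v ∧ N k v = N ((k : ℝ) - 1) (2 * v - k - 1) := by
  refine ⟨rfl, ?_⟩
  have h0 : (0 : ℝ) < 1 / 6 / 2 ^ k := by positivity
  rw [N_rec (by linarith)]
  have h1 : N ((k : ℝ) + 1) (2 * v) = 0 := by
    have := N_above (k + 1) (y := 2 * v) (by
      push_cast
      have : (2 : ℝ) / 3 / 2 ^ (k + 1) = 2 * (1 / 6 / 2 ^ k) := by rw [pow_succ]; field_simp; norm_num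
      rw [this]; linarith)
    push_cast at this
    exact this
  rw [h1, zero_add]

/-- the top part -/
lemma N_top {k : ℕ} (hk : 1 ≤ k) {s : ℝ} (hs : 0 < s) :
    N (k + 1 : ℕ) ((k : ℝ) + 1 + s) = N k ((k : ℝ) + 2 * s) := by
  have hk' : (1 : ℝ) ≤ k := by exact_mod_cast hk
  have h1 : ((k + 1 : ℕ) : ℝ) = (k : ℝ) + 1 := by push_cast; ring
  rw [h1, N_rec (by intro h; linarith)]
  have h2 : N ((k : ℝ) + 1 + 1) (2 * ((k : ℝ) + 1 + s)) = 0 := by
    have := N_above (k + 2) (y := 2 * ((k : ℝ) + 1 + s)) (by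
      push_cast
      have : (2 : ℝ) / 3 / 2 ^ (k + 2) ≤ 2 / 3 / 2 ^ 2 := by
        apply div_le_div_of_nonneg_left (by norm_num) (by norm_num)
        exact pow_le_pow_right₀ (by norm_num) (by omega)
      have h4 : (2 : ℝ) / 3 / 2 ^ 2 < 1 := by norm_num
      linarith)
    push_cast at this
    rw [show (k : ℝ) + 2 = (k : ℝ) + 1 + 1 by ring] at this
    exact this
  rw [h2, zero_add]
  congr 1 <;> ring

lemma N_top_iter (j : ℕ) : ∀ (s : ℝ), 0 < s →
    N (j + 1 : ℕ) ((j : ℝ) + 1 + s) = N 1 (1 + 2 ^ j * s) := by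
  induction j with
  | zero => intro s hs; simp
  | succ j ih =>
    intro s hs
    have h := N_top (k := j + 1) (by omega) hs
    rw [h]
    have h2 := ih (2 * s) (by linarith)
    push_cast at h2 ⊢
    rw [h2, pow_succ]
    congr 1
    ring

/-- climbing -/
lemma N_climb (k : ℕ) (hk : 1 ≤ k) (j : ℕ) : ∀ u : ℝ,
    (∀ i < j, 2 ^ i * u < ((k : ℝ) + i + 1) / 2) → N k u = N (k + j : ℕ) (2 ^ j * u) := by
  induction j with
  | zero => intro u _; simp
  | succ j ih =>
    intro u hu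
    rw [ih u fun i hi => hu i (by omega)]
    have h := hu j (by omega)
    rw [N_up (k := k + j) (by omega) (by push_cast; exact h), ← add_assoc, pow_succ]
    congr 1
    ring

/-- existence of a solution -/
lemma one_le_N (k : ℕ) {v : ℝ} (h0 : 0 ≤ v) (h1 : v ≤ k) : 1 ≤ N k v := by
  have hc : ContinuousOn (fun x => T x + k * x) (Icc 0 1) :=
    (T_cont.add (continuous_const.mul continuous_id)).continuousOn
  have h2 := intermediate_value_Icc (zero_le_one' ℝ) hc
  have h3 : v ∈ Icc (T 0 + k * 0) (T 1 + k * 1) := by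
    rw [T_zero, T_one]; constructor <;> linarith
  obtain ⟨x, hx, hxv⟩ := h2 h3
  unfold N
  rw [Set.one_le_encard_iff_nonempty]
  exact ⟨x, hx, hxv⟩

end Pool.Agent.H316R3.Tak
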