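import Mathlib
import Pool.Agent.H316R3.Tak.Basic

/-!
# The set where uniqueness may fail has small measure
-/

set_option autoImplicit false

open MeasureTheory Set Filter Topology

namespace Pool.Agent.H316R3.Tak

/-- `Bad m k`: levels whose path from slope `k` may meet a window within `m` steps -/
def Bad : ℕ → ℕ → Set ℝ
  | 0, _ => ∅
  | _ + 1, 0 => ∅
  | m + 1, k + 1 => Icc (((k : ℝ) + 2) / 2) (((k : ℝ) + 2) / 2 + 1 / 6 / 2 ^ (k + 1)) ∪
      ((fun v => 2 * v) ⁻¹' Bad m (k + 2) ∪ (fun v => 2 * v - ((k : ℝ) + 2)) ⁻¹' Bad m k)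

lemma Bad_mono_succ (m : ℕ) : ∀ k, Bad m k ⊆ Bad (m + 1) k := by
  induction m with
  | zero => intro k; simp [Bad]
  | succ m ih =>
    intro k
    cases k with
    | zero => simp [Bad]
    | succ k =>
      simp only [Bad]
      exact union_subset_union_right _ (union_subset_union (preimage_mono (ih _))
        (preimage_mono (ih _)))

lemma volume_preimage_two (S : Set ℝ) : volume ((fun v : ℝ => 2 * v) ⁻¹' S) =
    ENNReal.ofReal (1 / 2) * volume S := by
  rw [Real.volume_preimage_mul_left (by norm_num)]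
  norm_num

lemma volume_preimage_two_sub (c : ℝ) (S : Set ℝ) : volume ((fun v : ℝ => 2 * v - c) ⁻¹' S) =
    ENNReal.ofReal (1 / 2) * volume S := by
  have : (fun v : ℝ => 2 * v - c) ⁻¹' S = (fun v : ℝ => 2 * v) ⁻¹' ((fun v => v + (-c)) ⁻¹' S) := by
    ext v; simp [sub_eq_add_neg]
  rw [this, volume_preimage_two, measure_preimage_add_right]

lemma volume_Bad (m : ℕ) : ∀ k, volume (Bad m k) ≤ ENNReal.ofReal (2 / 3 * (1 - 1 / 2 ^ k)) := by
  induction m with
  | zero => intro k; simp [Bad]
  | succ m ih =>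
    intro k
    cases k with
    | zero => simp [Bad]
    | succ k =>
      simp only [Bad]
      have hle : ∀ j : ℕ, (0 : ℝ) ≤ 1 - 1 / 2 ^ j := by
        intro j
        have : (1 : ℝ) / 2 ^ j ≤ 1 := by
          rw [div_le_one (by positivity)]
          exact one_le_pow₀ (by norm_num)
        linarith
      calc volume (Icc (((k : ℝ) + 2) / 2) (((k : ℝ) + 2) / 2 + 1 / 6 / 2 ^ (k + 1)) ∪
            ((fun v => 2 * v) ⁻¹' Bad m (k + 2) ∪ (fun v => 2 * v - ((k : ℝ) + 2)) ⁻¹' Bad m k))
          ≤ volume (Icc (((k : ℝ) + 2) / 2) (((k : ℝ) + 2) / 2 + 1 / 6 / 2 ^ (k + 1))) +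
            (volume ((fun v : ℝ => 2 * v) ⁻¹' Bad m (k + 2)) +
              volume ((fun v => 2 * v - ((k : ℝ) + 2)) ⁻¹' Bad m k)) :=
            (measure_union_le _ _).trans (add_le_add_right (measure_union_le _ _) _)
        _ ≤ ENNReal.ofReal (1 / 6 / 2 ^ (k + 1)) +
            (ENNReal.ofReal (1 / 2) * ENNReal.ofReal (2 / 3 * (1 - 1 / 2 ^ (k + 2))) +
              ENNReal.ofReal (1 / 2) * ENNReal.ofReal (2 / 3 * (1 - 1 / 2 ^ k))) := by
            rw [volume_preimage_two, volume_preimage_two_sub, Real.volume_Icc]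
            gcongr
            · apply le_of_eq; ring
            · exact ih _
            · exact ih _
        _ = ENNReal.ofReal (1 / 6 / 2 ^ (k + 1) + (1 / 2 * (2 / 3 * (1 - 1 / 2 ^ (k + 2))) +
              1 / 2 * (2 / 3 * (1 - 1 / 2 ^ k)))) := by
            have h1 := hle k
            have h2 := hle (k + 2)
            rw [← ENNReal.ofReal_mul (by norm_num), ← ENNReal.ofReal_mul (by norm_num),
              ← ENNReal.ofReal_add (by positivity) (by positivity),
              ← ENNReal.ofReal_add (by positivity) (by positivity)]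
        _ = ENNReal.ofReal (2 / 3 * (1 - 1 / 2 ^ (k + 1))) := by
            congr 1
            rw [pow_succ, pow_succ]
            field_simp
            ring

/-- the union of the bad sets -/
def BadU (k : ℕ) : Set ℝ := ⋃ m, Bad m k

lemma volume_BadU (k : ℕ) : volume (BadU k) ≤ ENNReal.ofReal (2 / 3 * (1 - 1 / 2 ^ k)) := by
  unfold BadU
  have hm : Monotone fun m => Bad m k := monotone_nat_of_le_succ fun m => Bad_mono_succ m k
  rw [hm.measure_iUnion]
  exact iSup_le fun m => volume_Bad m k

lemma close (m : ℕ) : ∀ (k : ℕ) (v : ℝ), 1 ≤ k → 0 ≤ v → v ≤ k → v ∉ Bad m k →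
    ∀ x ∈ Sol k v, ∀ y ∈ Sol k v, |x - y| ≤ 1 / 2 ^ m := by
  induction m with
  | zero =>
    intro k v _ _ _ _ x hx y hy
    rw [pow_zero, div_one, abs_le]
    constructor <;> linarith [hx.1.1, hx.1.2, hy.1.1, hy.1.2]
  | succ m ih =>
    intro k v hk h0 h1 hv x hx y hy
    obtain ⟨j, rfl⟩ : ∃ j, k = j + 1 := ⟨k - 1, by omega⟩
    simp only [Bad, mem_union, mem_preimage, not_or] at hv
    obtain ⟨hv1, hv2, hv3⟩ := hv
    push_cast at hx hy h1
    have hjr : (0 : ℝ) ≤ j := Nat.cast_nonneg j
    rcases lt_or_ge v (((j : ℝ) + 2) / 2) with hlt | hge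
    · -- up
      have hside : ∀ z ∈ Sol ((j : ℝ) + 1) v, 2 * z ∈ Sol ((j + 2 : ℕ) : ℝ) (2 * v) := by
        intro z hz
        have hz2 : z ≤ 1 / 2 := by
          by_contra hcon
          have h2 := mem_right hz (not_le.1 hcon).le
          have h3 := N_neg (c := (j : ℝ) + 1 - 1) (y := 2 * v - ((j : ℝ) + 1) - 1)
            (by linarith) (by linarith)
          unfold N at h3
          rw [Set.encard_eq_zero] at h3
          rw [h3] at h2
          exact h2
        have := mem_left hz hz2
        push_cast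
        rw [show (j : ℝ) + 2 = (j : ℝ) + 1 + 1 by ring]
        exact this
      have := ih (j + 2) (2 * v) (by omega) (by linarith) (by push_cast; linarith) hv2
        (2 * x) (hside x hx) (2 * y) (hside y hy)
      rw [← mul_sub, abs_mul, abs_two] at this
      rw [pow_succ]
      have h4 : (1 : ℝ) / (2 ^ m * 2) = 1 / 2 ^ m / 2 := by field_simp
      rw [h4]; linarith
    · -- down
      have hgt : ((j : ℝ) + 2) / 2 + 1 / 6 / 2 ^ (j + 1) < v := by
        by_contra hcon
        exact hv1 ⟨hge, not_lt.1 hcon⟩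
      have hj : 1 ≤ j := by
        by_contra hcon
        have : j = 0 := by omega
        subst this
        norm_num at h1 hgt
        linarith
      have hside : ∀ z ∈ Sol ((j : ℝ) + 1) v, 2 * z - 1 ∈ Sol (j : ℝ) (2 * v - ((j : ℝ) + 2)) := by
        intro z hz
        have hz2 : 1 / 2 ≤ z := by
          by_contra hcon
          have h2 := mem_left hz (not_le.1 hcon).le
          have h3 := N_above (j + 2) (y := 2 * v) (by
            push_cast
            have : (2 : ℝ) / 3 / 2 ^ (j + 2) = 2 * (1 / 6 / 2 ^ (j + 1)) := by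
              rw [pow_succ _ (j + 1)]; field_simp; norm_num
            rw [this]; linarith)
          unfold N at h3
          rw [Set.encard_eq_zero] at h3
          push_cast at h3
          rw [show (j : ℝ) + 1 + 1 = (j : ℝ) + 2 by ring, h3] at h2
          exact h2
        have := mem_right hz hz2
        rw [show (j : ℝ) + 1 - 1 = j by ring,
          show 2 * v - ((j : ℝ) + 1) - 1 = 2 * v - ((j : ℝ) + 2) by ring] at this
        exact this
      have := ih j (2 * v - ((j : ℝ) + 2)) hj (by linarith [show (0:ℝ) < 1 / 6 / 2 ^ (j + 1) by positivity])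
        (by linarith) hv3 (2 * x - 1) (hside x hx) (2 * y - 1) (hside y hy)
      rw [show 2 * x - 1 - (2 * y - 1) = 2 * (x - y) by ring, abs_mul, abs_two] at this
      rw [pow_succ]
      have h4 : (1 : ℝ) / (2 ^ m * 2) = 1 / 2 ^ m / 2 := by field_simp
      rw [h4]; linarith

lemma N_eq_one {k : ℕ} (hk : 1 ≤ k) {v : ℝ} (h0 : 0 ≤ v) (h1 : v ≤ k) (hv : v ∉ BadU k) :
    N k v = 1 := by
  apply le_antisymm _ (one_le_N k h0 h1)
  unfold N
  rw [Set.encard_le_one_iff]
  intro x y hx hy
  by_contra hne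
  have hpos : 0 < |x - y| := abs_pos.2 (sub_ne_zero.2 hne)
  obtain ⟨m, hm⟩ := exists_pow_lt_of_lt_one hpos (by norm_num : (1 / 2 : ℝ) < 1)
  have hv' : v ∉ Bad m k := fun h => hv (mem_iUnion.2 ⟨m, h⟩)
  have := close m k v hk h0 h1 hv' x hx y hy
  rw [one_div, ← inv_pow, ← one_div] at this
  linarith

end Pool.Agent.H316R3.Tak
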